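import Pool.Agent.MP_9f080f_an.Mg.G_AM
import Pool.Agent.MP_9f080f_an.H83.Lower
import Pool.Agent.MP_9f080f_an.H83.Exist

namespace Pool.Agent.Results.MP_9f080f_an.LogBound

open scoped FourierTransform

/-- For every `n ≥ 2` there is exactly one even real Schwartz function `b` that equals its Fourier
transform and has `b(√m) = δ_{n,m}`; `f_n(x) = b(√x)` satisfies `∫ |f_n|² ≍ log n`. -/
theorem result : ∃ c C : ℝ, 0 < c ∧ ∀ n : ℕ, 2 ≤ n → ∃ b : SchwartzMap ℝ ℝ,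
    (∀ g : SchwartzMap ℝ ℝ, g = b ↔
      (∀ x : ℝ, g (-x) = g x) ∧
      (∀ ξ : ℝ, ∫ x : ℝ, (g x : ℂ) * Complex.exp (-2 * Real.pi * Complex.I * ξ * x) = (g ξ : ℂ)) ∧
      (∀ m : ℕ, g (Real.sqrt m) = if m = n then 1 else 0)) ∧
    MeasureTheory.IntegrableOn (fun x : ℝ => |b (Real.sqrt x)| ^ 2) (Set.Ioi 0) ∧
    c * Real.log n ≤ ∫ x in Set.Ioi (0 : ℝ), |b (Real.sqrt x)| ^ 2 ∧
    ∫ x in Set.Ioi (0 : ℝ), |b (Real.sqrt x)| ^ 2 ≤ C * Real.log n := by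
  obtain ⟨C, hC⟩ := Pool.Agent.MP_9f080f_an.full
  obtain ⟨c, hc, hc'⟩ := Pool.Agent.MP_9f080f_an.lo_all
  refine ⟨c, C, hc, fun n hn => ?_⟩
  obtain ⟨b, B, hB, h1, h2, h3, hb⟩ := Pool.Agent.MP_9f080f_an.ex_real (n := n) (by omega)
  have e : ∀ x : ℝ, |b x| = ‖B x‖ := fun x => by rw [hB, Complex.norm_real, Real.norm_eq_abs]
  refine ⟨b, hb, ?_⟩
  simp only [e]
  exact ⟨(hC n hn B h1 h2 h3).1, hc' n hn B h1 h2 h3, (hC n hn B h1 h2 h3).2⟩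

end Pool.Agent.Results.MP_9f080f_an.LogBound
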